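import Pool.Agent.H101.HB.Stm
import Pool.Graph.R_pool_sql_team_seeded_1acbe0a2.Y763.HB.ARCH

/-! Project HB-uniform (helper101): job S_K1 (helper287). -/

set_option autoImplicit false

open Complex MeasureTheory Filter Topology Set

namespace Pool.Agent.H287.HB

open Pool.Agent.Y763.HB Pool.Agent.H101.HB

lemma mu_abs (n : ℕ) : |mu n| ≤ 1 := by
  unfold mu
  have h := ArithmeticFunction.abs_moebius_le_one (n := n)
  exact_mod_cast h

lemma ln_re' (δ t : ℝ) : (ln δ t).re = 1 / 2 + δ := by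
  unfold ln
  simp

lemma A_cont (N : ℕ) (δ : ℝ) : Continuous fun t : ℝ => A N (ln δ t) := by
  unfold A
  refine continuous_finsetSum _ fun n hn => continuous_const.mul ?_
  have hn1 := (Finset.mem_Icc.1 hn).1
  have hn0 : (n : ℂ) ≠ 0 := by
    exact_mod_cast (by omega : n ≠ 0)
  refine Continuous.const_cpow ?_ (Or.inl hn0)
  unfold ln
  fun_prop

lemma A_bd (N : ℕ) {δ : ℝ} (hδ : 0 < δ) (t : ℝ) : ‖A N (ln δ t)‖ ≤ N := by
  unfold A
  refine (norm_sum_le _ _).trans ?_
  calc _ ≤ ∑ n ∈ Finset.Icc 1 N, (1 : ℝ) := by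
        refine Finset.sum_le_sum fun n hn => ?_
        have hn1 := (Finset.mem_Icc.1 hn).1
        have hn0 : (0 : ℝ) < n := by exact_mod_cast hn1
        rw [norm_mul, norm_real, Real.norm_eq_abs, ← ofReal_natCast,
          norm_cpow_eq_rpow_re_of_pos hn0, neg_re, ln_re']
        have h1 : (n : ℝ) ^ (-(1 / 2 + δ)) ≤ 1 :=
          Real.rpow_le_one_of_one_le_of_nonpos (by exact_mod_cast hn1) (by linarith)
        calc |mu n| * (n : ℝ) ^ (-(1 / 2 + δ)) ≤ 1 * 1 :=
              mul_le_mul (mu_abs n) h1 (Real.rpow_nonneg hn0.le _) zero_le_one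
          _ = 1 := one_mul 1
    _ = N := by simp

theorem t_K1 : S_K1 := by
  intro hR hARCH hMV hFT hOFF P hP ε hε hε1
  obtain ⟨C, hC, hRC⟩ := hR
  obtain ⟨M, hM0, hM⟩ := ARCH.exists_bound P
  filter_upwards [hMV hFT hOFF P ε hε hε1, hARCH P hP C ε hε, eventually_ge_atTop 1] with
    T hT1 hT2 hT N hN hNT δ hδ hδ8
  have hT0 : 0 < T := by linarith
  have hL : 0 ≤ Real.log T := Real.log_nonneg hT
  obtain ⟨G, hG⟩ : ∃ G : ℝ → ℝ, G = fun y => ‖A N (ln δ y)‖ ^ 2 := ⟨_, rfl⟩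
  have hGc : Continuous G := by
    rw [hG]
    exact (A_cont N δ).norm.pow 2
  have hGb : ∀ y, 0 ≤ G y ∧ G y ≤ T ^ 2 := by
    intro y
    rw [hG]
    refine ⟨by positivity, ?_⟩
    have h1 : (N : ℝ) ≤ T := hNT.trans (by
      calc T ^ (1 - ε) ≤ T ^ (1 : ℝ) := Real.rpow_le_rpow_of_exponent_le hT (by linarith)
        _ = T := Real.rpow_one T)
    exact pow_le_pow_left₀ (norm_nonneg _) ((A_bd N hδ y).trans h1) 2
  have h1 := abs_le.1 (hT1 N hNT δ hδ (by linarith))
  have h2 := hT2 G hGc hGb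
  have hmv : ∫ y : ℝ, G y * ph P (y / T) ≤ T * (∫ x : ℝ, ph P x) * Sd N δ + 1 := by
    rw [hG]
    linarith [h1.2]
  have hi2 : Integrable fun y : ℝ => (Real.log (2 + |y|) + C) * (G y * ph P (y / T)) := by
    refine ARCH.dom hP hM0 hM hT hGc hGb ?_ (c := Real.log T + 1 + |C|) (by positivity)
      fun y => ?_
    · have h1 : Continuous fun y : ℝ => Real.log (2 + |y|) :=
        Continuous.log (by fun_prop) fun y => by
          have := abs_nonneg y
          linarith
      exact h1.add continuous_const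
    · have h1 := ARCH.log_le (y := y) hT
      have h2 := ARCH.log_nonneg' y
      have h3 := abs_add_le (Real.log (2 + |y|)) C
      rw [abs_of_nonneg h2] at h3
      linarith
  have hpt : ∀ y, ‖A N (ln δ y)‖ ^ 2 * (1 - (R δ (ln δ y)).re) * ph P (y / T) ≤
      δ * ((Real.log (2 + |y|) + C) * (G y * ph P (y / T))) := by
    intro y
    have h3 := ((hRC δ hδ hδ8).2 y).1
    have h4 : 0 ≤ G y * ph P (y / T) := mul_nonneg (hGb y).1 (ARCH.ph_nonneg hP _)
    have e : ‖A N (ln δ y)‖ ^ 2 * (1 - (R δ (ln δ y)).re) * ph P (y / T) =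
        (1 - (R δ (ln δ y)).re) * (G y * ph P (y / T)) := by
      rw [hG]
      ring
    rw [e]
    exact (mul_le_mul_of_nonneg_right h3 h4).trans (le_of_eq (mul_assoc _ _ _))
  have hnn : ∀ y, 0 ≤ (Real.log (2 + |y|) + C) * (G y * ph P (y / T)) := fun y =>
    mul_nonneg (add_nonneg (ARCH.log_nonneg' y) hC.le)
      (mul_nonneg (hGb y).1 (ARCH.ph_nonneg hP _))
  have hle : (∫ t : ℝ, ‖A N (ln δ t)‖ ^ 2 * (1 - (R δ (ln δ t)).re) * ph P (t / T)) ≤
      δ * ∫ y : ℝ, (Real.log (2 + |y|) + C) * (G y * ph P (y / T)) := by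
    by_cases hint : Integrable fun t : ℝ =>
        ‖A N (ln δ t)‖ ^ 2 * (1 - (R δ (ln δ t)).re) * ph P (t / T)
    · rw [← integral_const_mul]
      exact integral_mono hint (hi2.const_mul δ) hpt
    · rw [integral_undef hint]
      exact mul_nonneg hδ.le (integral_nonneg hnn)
  refine hle.trans (mul_le_mul_of_nonneg_left (h2.trans ?_) hδ.le)
  have h5 : (1 + ε) * Real.log T * (∫ y : ℝ, G y * ph P (y / T)) ≤
      (1 + ε) * Real.log T * (T * (∫ x : ℝ, ph P x) * Sd N δ + 1) :=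
    mul_le_mul_of_nonneg_left hmv (by positivity)
  linarith

end Pool.Agent.H287.HB
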